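import Mathlib
import Pool.Agent.Helper10.ZP.TateV

/-!
# Words: long Jordan blocks of Frobenius on powers
-/

universe u v w

open CategoryTheory Finset

namespace Pool.Agent.Helper36.ZPW

open Pool.Agent.Helper10 Pool.Agent.Helper11 SmProjVar SPre Pool.Agent.Helper59.ZO
  Pool.Agent.Helper34.ZP Pool.Agent.Helper11.Iso Pool.Agent.Helper10.ZP

variable {k : Type u} [Field k] {K : Type v} [Field K] [CharZero K]
  (W : WeilCohomology.{u, v, w} k K) [Finite k]

/-- a class with a Jordan block of length `p + 1` -/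
def Bad (Y : SmProjVar k) (c p : ℕ) (x : W.H Y) : Prop :=
  x ∈ W.gr Y (2 * c) ∧ (frS W Y ((Nat.card k : K) ^ c) ^ p) x ≠ 0 ∧
    (frS W Y ((Nat.card k : K) ^ c) ^ (p + 1)) x = 0

/-- the external product -/
noncomputable def wext (A B : SmProjVar k) (a : W.H A) (b : W.H B) : W.H (A.prod B) :=
  W.pullA (fst A B) a * W.pullA (snd A B) b

omit [Finite k] in
lemma wext_ne_zero {A B : SmProjVar k} {a : W.H A} {b : W.H B} (ha : a ≠ 0) (hb : b ≠ 0) :
    wext W A B a b ≠ 0 :=
  SPre.ext_ne_zero (P := base W) ha hb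

lemma pullA_frob {Y Y' : SmProjVar k} (f : Y.toOver ⟶ Y'.toOver) (x : W.H Y') :
    W.pullA (frob Y) (W.pullA f x) = W.pullA f (W.pullA (frob Y') x) := by
  have e1 := W.pull_comp (frob Y) f x
  have e2 := W.pull_comp f (frob Y') x
  rw [frob_comp] at e1
  exact e1.symm.trans e2

lemma wext_frob (A B : SmProjVar k) (a : W.H A) (b : W.H B) :
    W.pullA (frob (A.prod B)) (wext W A B a b) =
      wext W A B (W.pullA (frob A) a) (W.pullA (frob B) b) := by
  unfold wext
  rw [map_mul, pullA_frob, pullA_frob]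

omit [Finite k] in
lemma wext_add_left (A B : SmProjVar k) (a a' : W.H A) (b : W.H B) :
    wext W A B (a + a') b = wext W A B a b + wext W A B a' b := by
  unfold wext
  rw [map_add, add_mul]

omit [Finite k] in
lemma wext_add_right (A B : SmProjVar k) (a : W.H A) (b b' : W.H B) :
    wext W A B a (b + b') = wext W A B a b + wext W A B a b' := by
  unfold wext
  rw [map_add, mul_add]

omit [Finite k] in
lemma wext_smul_left (A B : SmProjVar k) (r : K) (a : W.H A) (b : W.H B) :
    wext W A B (r • a) b = r • wext W A B a b := by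
  unfold wext
  rw [map_smul, smul_mul_assoc]

omit [Finite k] in
lemma wext_smul_right (A B : SmProjVar k) (r : K) (a : W.H A) (b : W.H B) :
    wext W A B a (r • b) = r • wext W A B a b := by
  unfold wext
  rw [map_smul, mul_smul_comm]

omit [Finite k] in
lemma wext_zero_left (A B : SmProjVar k) (b : W.H B) : wext W A B 0 b = 0 := by
  unfold wext
  rw [map_zero, zero_mul]

omit [Finite k] in
lemma wext_zero_right (A B : SmProjVar k) (a : W.H A) : wext W A B a 0 = 0 := by
  unfold wext
  rw [map_zero, mul_zero]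

/-- Frobenius minus a scalar on an external product -/
lemma frS_wext (A B : SmProjVar k) (a : W.H A) (b : W.H B) (c d : ℕ) :
    frS W (A.prod B) ((Nat.card k : K) ^ (c + d)) (wext W A B a b) =
      wext W A B (frS W A ((Nat.card k : K) ^ c) a) (frS W B ((Nat.card k : K) ^ d) b) +
      (Nat.card k : K) ^ d • wext W A B (frS W A ((Nat.card k : K) ^ c) a) b +
      (Nat.card k : K) ^ c • wext W A B a (frS W B ((Nat.card k : K) ^ d) b) := by
  have ha : W.pullA (frob A) a = frS W A ((Nat.card k : K) ^ c) a + (Nat.card k : K) ^ c • a := by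
    rw [frS_apply, sub_add_cancel]
  have hb : W.pullA (frob B) b = frS W B ((Nat.card k : K) ^ d) b + (Nat.card k : K) ^ d • b := by
    rw [frS_apply, sub_add_cancel]
  rw [frS_apply, wext_frob, ha, hb, wext_add_left, wext_add_right, wext_add_right,
    wext_smul_left, wext_smul_right, wext_smul_left, wext_smul_right, smul_smul, pow_add]
  abel

/-- the powers, on a product with an eigenclass -/
lemma frS_pow_eig (A B : SmProjVar k) (c d : ℕ) (b' : W.H B)
    (hb' : frS W B ((Nat.card k : K) ^ d) b' = 0) (a : W.H A) :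
    frS W (A.prod B) ((Nat.card k : K) ^ (c + d)) (wext W A B a b') =
      (Nat.card k : K) ^ d • wext W A B (frS W A ((Nat.card k : K) ^ c) a) b' := by
  rw [frS_wext, hb', wext_zero_right, wext_zero_right, zero_add, smul_zero, add_zero]

/-- the powers, on a product with a block of length two -/
lemma frS_pow_word (A B : SmProjVar k) (c d : ℕ) (b : W.H B)
    (hb : frS W B ((Nat.card k : K) ^ d) (frS W B ((Nat.card k : K) ^ d) b) = 0) (a : W.H A)
    (m : ℕ) :
    (frS W (A.prod B) ((Nat.card k : K) ^ (c + d)) ^ (m + 1)) (wext W A B a b) =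
      ((Nat.card k : K) ^ d) ^ (m + 1) •
        wext W A B ((frS W A ((Nat.card k : K) ^ c) ^ (m + 1)) a) b +
      ((m + 1 : ℕ) * ((Nat.card k : K) ^ d) ^ m) •
        wext W A B ((frS W A ((Nat.card k : K) ^ c) ^ (m + 1)) a +
          (Nat.card k : K) ^ c • (frS W A ((Nat.card k : K) ^ c) ^ m) a)
          (frS W B ((Nat.card k : K) ^ d) b) := by
  induction m with
  | zero =>
    simp only [zero_add, pow_one, pow_zero, Nat.cast_one, one_mul, one_smul, Module.End.one_apply]
    rw [frS_wext, wext_add_left, wext_smul_left]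
    abel
  | succ m ih =>
    have hs : ∀ (Y : SmProjVar k) (q : K) (n : ℕ) (x : W.H Y),
        frS W Y q ((frS W Y q ^ n) x) = (frS W Y q ^ (n + 1)) x := by
      intro Y q n x
      rw [pow_succ' (frS W Y q) n, Module.End.mul_apply]
    rw [pow_succ' _ (m + 1), Module.End.mul_apply, ih, map_add, map_smul, map_smul,
      frS_pow_eig W A B c d _ hb, frS_wext, map_add, map_smul, hs, hs]
    rw [wext_add_left, wext_smul_left]
    set q := (Nat.card k : K)
    set X1 := wext W A B ((frS W A (q ^ c) ^ (m + 1 + 1)) a) (frS W B (q ^ d) b)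
    set X2 := wext W A B ((frS W A (q ^ c) ^ (m + 1 + 1)) a) b
    set X3 := wext W A B ((frS W A (q ^ c) ^ (m + 1)) a) (frS W B (q ^ d) b)
    push_cast
    module

/-- one more letter -/
lemma Bad.word {A B : SmProjVar k} {c d p : ℕ} {a : W.H A} {b : W.H B} (ha : Bad W A c p a)
    (hb : Bad W B d 1 b) : Bad W (A.prod B) (c + d) (p + 1) (wext W A B a b) := by
  have hq : (Nat.card k : K) ≠ 0 := Zt.card_ne_zero'
  have hb2 : frS W B ((Nat.card k : K) ^ d) (frS W B ((Nat.card k : K) ^ d) b) = 0 := by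
    have := hb.2.2
    rw [pow_succ, pow_one, Module.End.mul_apply] at this
    exact this
  have hb1 : frS W B ((Nat.card k : K) ^ d) b ≠ 0 := by
    have := hb.2.1
    rw [pow_one] at this
    exact this
  refine ⟨?_, ?_, ?_⟩
  · have h := W.gr_mul (A.prod B) ((W.pull_hom (fst A B)).map_mem _ _ ha.1)
      ((W.pull_hom (snd A B)).map_mem _ _ hb.1)
    rw [show 2 * (c + d) = 2 * c + 2 * d by ring]
    exact h
  · rw [frS_pow_word W A B c d b hb2, ha.2.2, wext_zero_left, smul_zero, zero_add, zero_add,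
      wext_smul_left]
    refine smul_ne_zero (mul_ne_zero ?_ (pow_ne_zero _ (pow_ne_zero _ hq)))
      (smul_ne_zero (pow_ne_zero _ hq) (wext_ne_zero W ha.2.1 hb1))
    exact_mod_cast Nat.succ_ne_zero p
  · have h2 : (frS W A ((Nat.card k : K) ^ c) ^ (p + 1 + 1)) a = 0 := by
      rw [pow_succ', Module.End.mul_apply, ha.2.2, map_zero]
    rw [frS_pow_word W A B c d b hb2, h2, ha.2.2, wext_zero_left, smul_zero, smul_zero, zero_add,
      zero_add, wext_zero_left, smul_zero]

/-- words on powers -/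
lemma Bad.words {Y : SmProjVar k} {d : ℕ} {b : W.H Y} (hb : Bad W Y d 1 b) (n : ℕ) :
    ∃ (c : ℕ) (x : W.H (Y.selfProd n)), Bad W (Y.selfProd n) c (n + 1) x := by
  induction n with
  | zero => exact ⟨d, b, hb⟩
  | succ n ih =>
    obtain ⟨c, x, hx⟩ := ih
    exact ⟨c + d, wext W (Y.selfProd n) Y x b, hx.word W hb⟩

/-- pullbacks to varieties with a retract -/
lemma Bad.retract {A B : SmProjVar k} (h : Retract A B) {c p : ℕ} {x : W.H A}
    (hx : Bad W A c p x) : ∃ y : W.H B, Bad W B c p y := by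
  obtain ⟨i, r, hir⟩ := h
  have hcomm : ∀ (n : ℕ) (z : W.H A), (frS W B ((Nat.card k : K) ^ c) ^ n) (W.pullA r z) =
      W.pullA r ((frS W A ((Nat.card k : K) ^ c) ^ n) z) := by
    intro n
    induction n with
    | zero => intro z; rfl
    | succ n ih =>
      intro z
      rw [pow_succ, pow_succ, Module.End.mul_apply, Module.End.mul_apply, ← ih]
      congr 1
      rw [frS_apply, frS_apply, pullA_frob, map_sub, map_smul]
  have hinj : ∀ z : W.H A, W.pullA r z = 0 → z = 0 := by
    intro z hz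
    have h1 : W.pullA i (W.pullA r z) = z := by
      have e1 := W.pull_comp i r z
      rw [hir] at e1
      exact e1.symm.trans (W.pull_id A z)
    rw [← h1, hz, map_zero]
  refine ⟨W.pullA r x, (W.pull_hom r).map_mem _ _ hx.1, ?_, ?_⟩
  · rw [hcomm]
    exact fun h0 => hx.2.1 (hinj _ h0)
  · rw [hcomm, hx.2.2, map_zero]

/-- **Words.** A block of length two on one power gives blocks of every length on powers. -/
theorem exists_words {X : SmProjVar k} {s j : ℕ} {x : W.H (X.selfProd s)}
    (h0 : x ∈ W.gr (X.selfProd s) (2 * j))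
    (h2 : (frS W (X.selfProd s) ((Nat.card k : K) ^ j) ^ 2) x = 0)
    (h1 : frS W (X.selfProd s) ((Nat.card k : K) ^ j) x ≠ 0) (i : ℕ) (hi : 1 ≤ i) :
    ∃ (r c : ℕ) (y : W.H (X.selfProd r)), y ∈ W.gr (X.selfProd r) (2 * c) ∧
      (frS W (X.selfProd r) ((Nat.card k : K) ^ c) ^ i) y ≠ 0 ∧
      (frS W (X.selfProd r) ((Nat.card k : K) ^ c) ^ (i + 1)) y = 0 := by
  obtain ⟨n, rfl⟩ := Nat.exists_eq_add_of_le' hi
  have hb : Bad W (X.selfProd s) j 1 x := ⟨h0, by rw [pow_one]; exact h1, h2⟩
  obtain ⟨c, y, hy⟩ := hb.words W n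
  obtain ⟨r, hr⟩ := Retract.pow_pow X s n
  obtain ⟨z, hz⟩ := hy.retract W hr
  exact ⟨r, c, z, hz⟩

end Pool.Agent.Helper36.ZPW
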