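import Mathlib
import Pool.Agent.Helper10.ZP.TateFilt
import Pool.Agent.Helper36.ZP.Words

/-!
# The filtration is strict on some power
-/

universe u v w

namespace Pool.Agent.Helper36.ZPW

open Pool.Agent.Helper10 Pool.Agent.Helper11 SmProjVar SPre Pool.Agent.Helper59.ZO
  Pool.Agent.Helper34.ZP Pool.Agent.Helper11.Iso Pool.Agent.Helper10.ZP

variable {k : Type u} [Field k] {K : Type v} [Field K] [CharZero K]
  (W : WeilCohomology.{u, v, w} k K) [Finite k]

/-- **Words.** A block of length two on one power: every step of the filtration is strict on some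
power. -/
theorem tateI_ne {X : SmProjVar k} {s j : ℕ} {x : W.H (X.selfProd s)}
    (h0 : x ∈ W.gr (X.selfProd s) (2 * j))
    (h2 : (frS W (X.selfProd s) ((Nat.card k : K) ^ j) ^ 2) x = 0)
    (h1 : frS W (X.selfProd s) ((Nat.card k : K) ^ j) x ≠ 0) (i : ℕ) (hi : 1 ≤ i) :
    ∃ r : ℕ, tateI W i (X.selfProd r) ≠ tateI W (i + 1) (X.selfProd r) := by
  obtain ⟨r, c, y, hy, hy1, hy2⟩ := exists_words W h0 h2 h1 i hi
  refine ⟨r, fun he => ?_⟩
  have h3 : y ∈ tateI W (i + 1) (X.selfProd r) := (mem_tateI_iff W hy).2 hy2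
  rw [← he] at h3
  exact hy1 ((mem_tateI_iff W hy).1 h3)

end Pool.Agent.Helper36.ZPW
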